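import Pool.Agent.Q161.ESF.Stm8

/-!
# Project ESF (helper161), job DEN: counting classes of pairs
-/

set_option autoImplicit false

namespace Pool.Agent.Q151.ESF

open NumberField Pool.Agent.Q161.ESF

variable {F : Type} [Field F] [NumberField F]

theorem mk_eq {q : ℕ} {a b : 𝓞 F} : Ideal.Quotient.mk (Ideal.span {(q : 𝓞 F)}) a =
    Ideal.Quotient.mk (Ideal.span {(q : 𝓞 F)}) b ↔ (q : 𝓞 F) ∣ a - b := by
  rw [Ideal.Quotient.mk_eq_mk_iff_sub_mem, Ideal.mem_span_singleton]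

/-- the property of the class `z` -/
def Cp (q : ℕ) (P : 𝓞 F → 𝓞 F → Prop) (z : Cl F q × Cl F q) : Prop :=
  ∀ a b : 𝓞 F, z = (Ideal.Quotient.mk (Ideal.span {(q : 𝓞 F)}) a,
    Ideal.Quotient.mk (Ideal.span {(q : 𝓞 F)}) b) → P a b

theorem cp_mk {q : ℕ} {P : 𝓞 F → 𝓞 F → Prop} (h : Per q P) (a b : 𝓞 F) :
    Cp q P (Ideal.Quotient.mk (Ideal.span {(q : 𝓞 F)}) a,
      Ideal.Quotient.mk (Ideal.span {(q : 𝓞 F)}) b) ↔ P a b := by
  constructor
  · intro h1
    exact h1 a b rfl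
  · intro h1 a' b' h2
    rw [Prod.mk.injEq] at h2
    exact h a b a' b' (mk_eq.1 h2.1) (mk_eq.1 h2.2) h1

theorem per_not {q : ℕ} {P : 𝓞 F → 𝓞 F → Prop} (h : Per q P) : Per q (fun a b => ¬ P a b) := by
  intro a b a' b' h1 h2 h3 h4
  refine h3 (h a' b' a b ?_ ?_ h4)
  · rw [← neg_sub, dvd_neg]
    exact h1
  · rw [← neg_sub, dvd_neg]
    exact h2

theorem card_cl (q : ℕ) : Nat.card (Cl F q) = q ^ Module.finrank ℚ F := by
  have h1 : Nat.card (Cl F q) = Ideal.absNorm (Ideal.span {(q : 𝓞 F)}) := by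
    rw [Ideal.absNorm_apply]
    rfl
  rw [h1, Ideal.absNorm_span_singleton]
  rw [Algebra.norm_natCast, Int.natAbs_pow, Int.natAbs_natCast, RingOfIntegers.rank]

theorem card_two (q : ℕ) : Nat.card (Cl F q × Cl F q) = q ^ (2 * Module.finrank ℚ F) := by
  rw [Nat.card_prod, card_cl, ← pow_add, two_mul]

theorem fin_cl (q : ℕ) (hq : q ≠ 0) : Finite (Cl F q) := by
  apply Nat.finite_of_card_ne_zero
  rw [card_cl]
  exact pow_ne_zero _ hq

theorem cnt_eq (q : ℕ) (P : 𝓞 F → 𝓞 F → Prop) : cnt q P = Nat.card {z : Cl F q × Cl F q // Cp q P z} :=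
  rfl

theorem crt {q r : ℕ} (h : Nat.Coprime q r) :
    ∃ e : Cl F (q * r) ≃ Cl F q × Cl F r, ∀ a : 𝓞 F,
      e (Ideal.Quotient.mk (Ideal.span {((q * r : ℕ) : 𝓞 F)}) a) =
        (Ideal.Quotient.mk (Ideal.span {(q : 𝓞 F)}) a, Ideal.Quotient.mk (Ideal.span {(r : 𝓞 F)}) a) := by
  have hco : IsCoprime (q : 𝓞 F) (r : 𝓞 F) := by
    have h1 := (Nat.isCoprime_iff_coprime.2 h).map (Int.castRingHom (𝓞 F))
    simpa using h1
  have l1 : Ideal.span {((q * r : ℕ) : 𝓞 F)} ≤ Ideal.span {(q : 𝓞 F)} := by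
    rw [Ideal.span_singleton_le_span_singleton, Nat.cast_mul]
    exact dvd_mul_right _ _
  have l2 : Ideal.span {((q * r : ℕ) : 𝓞 F)} ≤ Ideal.span {(r : 𝓞 F)} := by
    rw [Ideal.span_singleton_le_span_singleton, Nat.cast_mul]
    exact dvd_mul_left _ _
  obtain ⟨f, hf⟩ : ∃ f : Cl F (q * r) → Cl F q × Cl F r, ∀ a : 𝓞 F,
      f (Ideal.Quotient.mk (Ideal.span {((q * r : ℕ) : 𝓞 F)}) a) =
        (Ideal.Quotient.mk (Ideal.span {(q : 𝓞 F)}) a, Ideal.Quotient.mk (Ideal.span {(r : 𝓞 F)}) a) :=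
    ⟨fun z => (Ideal.Quotient.factor l1 z, Ideal.Quotient.factor l2 z), fun a => rfl⟩
  have hbij : Function.Bijective f := by
    constructor
    · intro x y hxy
      obtain ⟨a, rfl⟩ := Ideal.Quotient.mk_surjective x
      obtain ⟨b, rfl⟩ := Ideal.Quotient.mk_surjective y
      rw [hf, hf, Prod.mk.injEq] at hxy
      rw [mk_eq, Nat.cast_mul]
      exact hco.mul_dvd (mk_eq.1 hxy.1) (mk_eq.1 hxy.2)
    · rintro ⟨x, y⟩
      obtain ⟨a, rfl⟩ := Ideal.Quotient.mk_surjective x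
      obtain ⟨b, rfl⟩ := Ideal.Quotient.mk_surjective y
      obtain ⟨u, v, huv⟩ := hco
      refine ⟨Ideal.Quotient.mk _ (a * (v * r) + b * (u * q)), ?_⟩
      rw [hf, Prod.mk.injEq, mk_eq, mk_eq]
      constructor
      · refine ⟨(b - a) * u, ?_⟩
        linear_combination a * huv
      · refine ⟨(a - b) * v, ?_⟩
        linear_combination b * huv
  exact ⟨Equiv.ofBijective f hbij, hf⟩

/-- JOB DEN -/
theorem den : S_DEN := by
  intro F _ _
  refine ⟨?_, ?_, ?_⟩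
  · intro q hq
    rw [cnt_eq, ← card_two (F := F) q]
    exact Nat.card_congr (Equiv.subtypeUnivEquiv fun z a b _ => trivial)
  · intro q P hq hP
    have hfin := fin_cl (F := F) q hq
    have h1 : cnt q (fun a b => ¬ P a b) = Nat.card {z : Cl F q × Cl F q // ¬ Cp q P z} := by
      rw [cnt_eq]
      refine Nat.card_congr (Equiv.subtypeEquivRight fun z => ?_)
      obtain ⟨z1, z2⟩ := z
      obtain ⟨a, rfl⟩ := Ideal.Quotient.mk_surjective z1
      obtain ⟨b, rfl⟩ := Ideal.Quotient.mk_surjective z2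
      rw [cp_mk (per_not hP), cp_mk hP]
    rw [h1, cnt_eq, ← card_two (F := F) q, ← Nat.card_sum]
    classical
    exact Nat.card_congr (Equiv.sumCompl _)
  · intro q r P Q hq hr hqr hP hQ
    obtain ⟨e, he⟩ := crt (F := F) hqr
    have hPQ : Per (q * r) (fun a b => P a b ∧ Q a b) := by
      intro a b a' b' h1 h2 h3
      rw [Nat.cast_mul] at h1 h2
      exact ⟨hP a b a' b' ((dvd_mul_right _ _).trans h1) ((dvd_mul_right _ _).trans h2) h3.1,
        hQ a b a' b' ((dvd_mul_left _ _).trans h1) ((dvd_mul_left _ _).trans h2) h3.2⟩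
    rw [cnt_eq, cnt_eq, cnt_eq, ← Nat.card_prod]
    refine Nat.card_congr (Equiv.trans (Equiv.subtypeEquiv
      ((e.prodCongr e).trans (Equiv.prodProdProdComm _ _ _ _)) (q := fun w => Cp q P w.1 ∧ Cp r Q w.2)
      ?_) (Equiv.subtypeProdEquivProd (p := Cp q P) (q := Cp r Q)))
    rintro ⟨z1, z2⟩
    obtain ⟨a, rfl⟩ := Ideal.Quotient.mk_surjective z1
    obtain ⟨b, rfl⟩ := Ideal.Quotient.mk_surjective z2
    rw [cp_mk hPQ]
    have h1 : ((e.prodCongr e).trans (Equiv.prodProdProdComm _ _ _ _))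
        (Ideal.Quotient.mk (Ideal.span {((q * r : ℕ) : 𝓞 F)}) a,
          Ideal.Quotient.mk (Ideal.span {((q * r : ℕ) : 𝓞 F)}) b) =
        ((Ideal.Quotient.mk (Ideal.span {(q : 𝓞 F)}) a, Ideal.Quotient.mk (Ideal.span {(q : 𝓞 F)}) b),
          (Ideal.Quotient.mk (Ideal.span {(r : 𝓞 F)}) a, Ideal.Quotient.mk (Ideal.span {(r : 𝓞 F)}) b)) := by
      rw [Equiv.trans_apply, Equiv.prodCongr_apply, Prod.map_apply, he, he]
      rfl
    rw [h1]
    exact (and_congr (cp_mk hP a b) (cp_mk hQ a b)).symm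

end Pool.Agent.Q151.ESF
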